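import Pool.Agent.H66.L.S8.Y318.MN.Cyc
import Pool.Agent.H66.L.S8.Y318.MH.Dyn

/-!
# Finitely many attractors after the push

Author: helper318.
-/

set_option autoImplicit false
set_option linter.unusedSectionVars false

open scoped Manifold ContDiff Topology NNReal
open Filter Set Metric MeasureTheory

universe u

namespace Pool.Agent.Y318.MN

open Pool.Agent.H718R2.G Pool.Agent.TH80.OMS Pool.Agent.Y504.CO

open Pool.Agent.H728R2.FA (omegaLim FiniteAttractors)

variable {n : ℕ} {N : Type u} [TopologicalSpace N] [T2Space N] [CompactSpace N]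
  [ChartedSpace (V n) N] [IsManifold (𝓡 n) ∞ N]

theorem omegaLim_sub_omega {X : Type u} [TopologicalSpace X] (g : X → X) (p : X) :
    omegaLim g p ⊆ Omega g := by
  intro y hy W hW hyW
  obtain ⟨a, -, ha⟩ := hy W (hW.mem_nhds hyW) 0
  obtain ⟨b, hb, hb'⟩ := hy W (hW.mem_nhds hyW) (a + 1)
  refine ⟨b - a, by omega, g^[a] p, ha, ?_⟩
  rw [← Function.iterate_add_apply, Nat.sub_add_cancel (by omega)]
  exact hb'

theorem cover_of_metric [TopologicalSpace.MetrizableSpace N] (g : N ≃ₜ N) {m : ℕ}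
    (M : Fin m → Set N) (hcl : ∀ i, IsClosed (M i)) (hinv : ∀ i, g '' M i = M i)
    (hdis : ∀ i j, i ≠ j → Disjoint (M i) (M j))
    (hp : ∀ p, omegaLim g p ⊆ ⋃ i, M i) (p : N) : ∃ i, omegaLim g p ⊆ M i := by
  letI : MetricSpace N := TopologicalSpace.metrizableSpaceMetric N
  exact Pool.Agent.Y318.MH.omegaLim_one g M hcl hinv hdis p (hp p)

theorem attr_of_metric [TopologicalSpace.MetrizableSpace N] [MeasurableSpace N] (μ : Measure N)
    (g : N ≃ₜ N) {m : ℕ} (M : Fin m → Set N) (hinv : ∀ i, g '' M i = M i)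
    (htr : ∀ i, ∃ x ∈ M i, M i ⊆ closure (range fun n : ℕ => g^[n] x))
    (hcov : ∀ p, ∃ i, omegaLim g p ⊆ M i) : FiniteAttractors μ g := by
  letI : MetricSpace N := TopologicalSpace.metrizableSpaceMetric N
  exact Pool.Agent.Y318.MH.finite_of_cover μ g M hinv htr hcov

/-- **Finitude of attractors.** -/
theorem finitude {r : ℕ∞} (hr : 1 ≤ r) (F : DiffM n N r) {h : N → ℝ}
    (hh : ContMDiff (𝓡 n) 𝓘(ℝ, ℝ) ∞ h) (hm : ∀ x, h x ≤ h (F x)) {m : ℕ} (M : Fin m → Set N)
    (hcl : ∀ i, IsClosed (M i)) (hinv : ∀ i, F '' M i = M i)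
    (hdis : ∀ i j, i ≠ j → Disjoint (M i) (M j)) (hC : ∀ i, ∀ x ∈ M i, IsCrit n h x)
    (htr : ∀ i, ∃ x ∈ M i, M i ⊆ closure (range fun k : ℕ => F^[k] x))
    (hcov : CritInv n F h ⊆ ⋃ i, M i) (U : Set (DiffM n N r))
    (hU : IsOpen[strongTop n N r] U) (hFU : F ∈ U) :
    ∃ G ∈ U, (∀ p, ∃ i, omegaLim G p ⊆ M i) ∧
      ∀ (_ : MeasurableSpace N) (μ : Measure N), FiniteAttractors μ G := by
  obtain ⟨Φ, G, hGU, hG, hΦ⟩ := exists_push hh hr F U hU hFU
  have hmet := exists_metric n N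
  have hGF : ∀ i, ∀ x ∈ M i, G x = F x := fun i x hx => by rw [hG, hΦ.fix x (hC i x hx)]
  have hFM : ∀ i, ∀ x ∈ M i, F x ∈ M i := fun i x hx => by
    rw [← hinv i]
    exact mem_image_of_mem _ hx
  have hinvG : ∀ i, G.toHomeomorph '' M i = M i := by
    intro i
    conv_rhs => rw [← hinv i]
    exact image_congr (hGF i)
  have h1 : ∀ p, ∃ i, omegaLim G p ⊆ M i := fun p =>
    cover_of_metric G.toHomeomorph M hcl hinvG hdis
      (fun p => (omegaLim_sub_omega _ _).trans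
        ((omega_sub hh.continuous hm hG hΦ).trans hcov)) p
  refine ⟨G, hGU, h1, fun _ μ => attr_of_metric μ G.toHomeomorph M hinvG (fun i => ?_) h1⟩
  obtain ⟨x, hx, hd⟩ := htr i
  refine ⟨x, hx, ?_⟩
  have e : (fun k : ℕ => G.toHomeomorph^[k] x) = fun k : ℕ => F^[k] x := by
    funext k
    have key : G^[k] x = F^[k] x ∧ F^[k] x ∈ M i := by
      induction k with
      | zero => exact ⟨rfl, hx⟩
      | succ k ih =>
        rw [Function.iterate_succ_apply', Function.iterate_succ_apply', ih.1]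
        exact ⟨hGF i _ ih.2, hFM i _ ih.2⟩
    exact key.1
  rw [e]
  exact hd

end Pool.Agent.Y318.MN
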