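import Pool.Agent.H66.L.S8.Y318.MN.Dyn

/-!
# A function with countably many invariant critical points is not a first integral

Author: helper318.
-/

set_option autoImplicit false
set_option linter.unusedSectionVars false

open scoped Manifold ContDiff Topology
open Filter Set Metric

universe u

namespace Pool.Agent.Y318.MN

open Pool.Agent.H718R2.G Pool.Agent.TH80.OMS Pool.Agent.Y504.CO

variable {n : ℕ} {N : Type u} [TopologicalSpace N] [T2Space N] [CompactSpace N]
  [ChartedSpace (V n) N] [IsManifold (𝓡 n) ∞ N]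

/-- every value of a first integral is taken on the nonwandering set -/
theorem value_omega {r : ℕ∞} {F : DiffM n N r} {h : N → ℝ} (hc : Continuous h)
    (heq : ∀ x, h (F x) = h x) (x : N) : ∃ y ∈ Omega F, h y = h x := by
  have hit : ∀ k : ℕ, h (F^[k] x) = h x := by
    intro k
    induction k with
    | zero => rfl
    | succ k ih => rw [Function.iterate_succ_apply', heq, ih]
  obtain ⟨y, hy⟩ : ∃ y, MapClusterPt y atTop fun k : ℕ => F^[k] x :=
    exists_clusterPt_of_compactSpace _
  refine ⟨y, ?_, ?_⟩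
  · intro W hW hyW
    have h1 : ∃ᶠ k in atTop, F^[k] x ∈ W := hy.frequently (hW.mem_nhds hyW)
    obtain ⟨a, -, ha⟩ := (frequently_atTop.1 h1) 0
    obtain ⟨b, hb, hb'⟩ := (frequently_atTop.1 h1) (a + 1)
    refine ⟨b - a, by omega, F^[a] x, ha, ?_⟩
    rw [← Function.iterate_add_apply, Nat.sub_add_cancel (by omega)]
    exact hb'
  · by_contra hne
    have hW : IsOpen {z | h z ≠ h x} := isOpen_ne_fun hc continuous_const
    have h1 : ∃ᶠ k in atTop, F^[k] x ∈ {z | h z ≠ h x} := hy.frequently (hW.mem_nhds hne)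
    obtain ⟨a, -, ha⟩ := (frequently_atTop.1 h1) 0
    exact ha (hit a)

theorem crit_of_finite {r : ℕ∞} {F : DiffM n N r} {h : N → ℝ} (hc : Continuous h)
    (heq : ∀ x, h (F x) = h x) (hfin : (Omega F).Finite) (x : N) : IsCrit n h x := by
  have hr : (range h).Finite := by
    refine (hfin.image h).subset ?_
    rintro _ ⟨z, rfl⟩
    obtain ⟨y, hy, hyz⟩ := value_omega hc heq z
    exact ⟨y, hy, hyz⟩
  have hcl : IsClosed (range h \ {h x}) := (hr.subset sdiff_subset).isClosed
  have hU : (h ⁻¹' (range h \ {h x})ᶜ) ∈ 𝓝 x :=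
    (hcl.isOpen_compl.preimage hc).mem_nhds fun hcon => hcon.2 rfl
  have e : h =ᶠ[𝓝 x] fun _ => h x := by
    filter_upwards [hU] with z hz
    by_contra hne
    exact hz ⟨⟨z, rfl⟩, hne⟩
  unfold IsCrit
  rw [e.mfderiv_eq]
  exact mfderiv_const

theorem not_countable_univ (hn : 0 < n) [Nonempty N] : ¬ (univ : Set N).Countable := by
  intro hcount
  obtain ⟨z⟩ := ‹Nonempty N›
  have hne : Nonempty (Fin n) := ⟨⟨0, hn⟩⟩
  have : Nontrivial (V n) := by
    have : Nontrivial (EuclideanSpace ℝ (Fin n)) := inferInstance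
    exact this
  set χ := chartAt (V n) z with hχ
  have h1 : (χ '' χ.source).Countable := (hcount.mono (subset_univ _)).image _
  rw [χ.image_source_eq_target] at h1
  have h2 : Dense (χ.target)ᶜ := h1.dense_compl ℝ
  obtain ⟨v, hv, hv'⟩ := h2.inter_open_nonempty χ.target χ.open_target
    ⟨χ z, mem_chart_target _ z⟩
  exact hv' hv

/-- If `h` is a first integral of `F`, then not both `Ω(F)` is finite and the invariant critical
points of `h` are countable. -/
theorem not_integral {r : ℕ∞} {F : DiffM n N r} {h : N → ℝ} (hc : Continuous h)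
    (hm : ∀ x, h x ≤ h (F x)) (hfin : (Omega F).Finite) (hn : 0 < n) [Nonempty N]
    (hcr : (CritInv n F h).Countable) : ∃ x, h x < h (F x) := by
  by_contra hcon
  push Not at hcon
  have heq : ∀ x, h (F x) = h x := fun x => le_antisymm (hcon x) (hm x)
  apply not_countable_univ (n := n) (N := N) hn
  have hsub : (univ : Set N) ⊆ CritInv n F h := fun x _ k =>
    ⟨crit_of_finite hc heq hfin _, crit_of_finite hc heq hfin _⟩
  exact hcr.mono hsub

end Pool.Agent.Y318.MN
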