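import Pool.Agent.H66.L.S8.TH80.OMS.Push

/-!
# The gradient step in `ℝⁿ`

Author: helper318.
-/

set_option autoImplicit false
set_option linter.unusedSectionVars false

open scoped Manifold ContDiff Topology NNReal
open Filter Set Metric

universe u

namespace Pool.Agent.Y318.MN

open Pool.Agent.H718R2.G Pool.Agent.TH80.OMS

variable {n : ℕ}

theorem quad (H : V n → ℝ) (hH : ContDiff ℝ ∞ H) (hc : HasCompactSupport H) :
    ∃ C : ℝ, 0 ≤ C ∧ ∀ v w, H v + fderiv ℝ H v w - C * ‖w‖ ^ 2 ≤ H (v + w) := by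
  have hd : ContDiff ℝ ∞ (fderiv ℝ H) := hH.fderiv_right (by simp)
  obtain ⟨L, hL⟩ := ContDiff.lipschitzWith_of_hasCompactSupport (𝕂 := ℝ) (n := ∞)
    (hc.fderiv (𝕜 := ℝ)) hd (by simp)
  have hL0 : (0 : ℝ) ≤ L := L.coe_nonneg
  refine ⟨L, hL0, fun z v => ?_⟩
  have hderiv : ∀ t : ℝ, HasDerivAt (fun t : ℝ => H (z + t • v)) (fderiv ℝ H (z + t • v) v) t := by
    intro t
    have h1 : HasFDerivAt H (fderiv ℝ H (z + t • v)) (z + t • v) :=
      (hH.differentiable (by simp) _).hasFDerivAt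
    have h2 : HasDerivAt (fun t : ℝ => z + t • v) v t := by
      simpa using ((hasDerivAt_id t).smul_const v).const_add z
    exact h1.comp_hasDerivAt t h2
  obtain ⟨t, ht, heq⟩ := exists_hasDerivAt_eq_slope (fun t : ℝ => H (z + t • v))
    (fun t => fderiv ℝ H (z + t • v) v) (zero_lt_one)
    (fun t _ => (hderiv t).continuousAt.continuousWithinAt) (fun t _ => hderiv t)
  simp only [one_smul, zero_smul, add_zero, sub_zero, div_one] at heq
  have h1 : |fderiv ℝ H (z + t • v) v - fderiv ℝ H z v| ≤ L * ‖v‖ ^ 2 := by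
    have h2 : fderiv ℝ H (z + t • v) v - fderiv ℝ H z v =
        (fderiv ℝ H (z + t • v) - fderiv ℝ H z) v := rfl
    rw [h2, ← Real.norm_eq_abs]
    refine (ContinuousLinearMap.le_opNorm _ _).trans ?_
    have h3 := hL.norm_sub_le (z + t • v) z
    have h4 : ‖z + t • v - z‖ ≤ ‖v‖ := by
      rw [add_sub_cancel_left, norm_smul, Real.norm_eq_abs, abs_of_pos ht.1]
      nlinarith [norm_nonneg v, ht.2]
    calc ‖fderiv ℝ H (z + t • v) - fderiv ℝ H z‖ * ‖v‖ ≤ (L * ‖z + t • v - z‖) * ‖v‖ :=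
          mul_le_mul_of_nonneg_right h3 (norm_nonneg _)
      _ ≤ (L * ‖v‖) * ‖v‖ := by gcongr
      _ = L * ‖v‖ ^ 2 := by ring
  have h7 := (abs_le.1 h1).1
  linarith

/-- the gradient in coordinates -/
noncomputable def gr (H : V n → ℝ) (v : V n) : V n :=
  WithLp.toLp 2 fun i => fderiv ℝ H v (EuclideanSpace.single i 1)

theorem gr_smooth (H : V n → ℝ) (hH : ContDiff ℝ ∞ H) : ContDiff ℝ ∞ (gr H) := by
  have hd : ContDiff ℝ ∞ (fderiv ℝ H) := hH.fderiv_right (by simp)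
  rw [contDiff_euclidean]
  intro i
  exact hd.clm_apply contDiff_const

theorem fderiv_coord (H : V n → ℝ) (v w : V n) :
    fderiv ℝ H v w = ∑ i, w i * gr H v i := by
  conv_lhs => rw [← (EuclideanSpace.basisFun (Fin n) ℝ).sum_repr w]
  rw [map_sum]
  refine Finset.sum_congr rfl fun i _ => ?_
  rw [map_smul, smul_eq_mul, EuclideanSpace.basisFun_repr, EuclideanSpace.basisFun_apply]
  rfl

theorem norm_gr (H : V n → ℝ) (v : V n) : ‖gr H v‖ ^ 2 = ∑ i, gr H v i * gr H v i := by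
  rw [EuclideanSpace.norm_sq_eq]
  refine Finset.sum_congr rfl fun i _ => ?_
  rw [Real.norm_eq_abs, sq_abs, sq]

theorem fderiv_gr (H : V n → ℝ) (v : V n) : fderiv ℝ H v (gr H v) = ‖gr H v‖ ^ 2 := by
  rw [fderiv_coord, norm_gr]

theorem gr_eq_zero (H : V n → ℝ) (v : V n) : gr H v = 0 ↔ fderiv ℝ H v = 0 := by
  constructor
  · intro h
    ext w
    rw [fderiv_coord, h]
    simp
  · intro h
    have h1 : ‖gr H v‖ ^ 2 = 0 := by rw [← fderiv_gr, h]; simp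
    exact norm_eq_zero.1 (pow_eq_zero_iff (two_ne_zero) |>.1 h1)

/-- The gradient step, cut off by `β`, increases `H`. -/
theorem grad_step (H : V n → ℝ) (hH : ContDiff ℝ ∞ H) (hc : HasCompactSupport H) :
    ∃ κ : ℝ, 0 < κ ∧ ∀ s : ℝ, 0 < s → s < κ → ∀ b : ℝ, 0 ≤ b → b ≤ 1 → ∀ v,
      H v ≤ H (v + (s * b) • gr H v) ∧ (H (v + (s * b) • gr H v) = H v → b = 0 ∨ gr H v = 0) ∧
        H v + 1 / 2 * (s * b * ‖gr H v‖ ^ 2) ≤ H (v + (s * b) • gr H v) := by
  obtain ⟨C, hC0, hC⟩ := quad H hH hc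
  refine ⟨1 / (2 * (C + 1)), by positivity, fun s hs hs' b hb hb' v => ?_⟩
  have h1 := hC v ((s * b) • gr H v)
  rw [map_smul, smul_eq_mul, fderiv_gr, norm_smul, Real.norm_eq_abs, mul_pow, sq_abs] at h1
  have h2 : C * s ≤ 1 / 2 := by
    rw [lt_div_iff₀ (by positivity)] at hs'
    nlinarith
  have h3 : C * ((s * b) ^ 2 * ‖gr H v‖ ^ 2) ≤ 1 / 2 * (s * b * ‖gr H v‖ ^ 2) := by
    have h4 : C * s * b ≤ 1 / 2 := by nlinarith
    have h5 : 0 ≤ s * b * ‖gr H v‖ ^ 2 := by positivity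
    calc C * ((s * b) ^ 2 * ‖gr H v‖ ^ 2) = (C * s * b) * (s * b * ‖gr H v‖ ^ 2) := by ring
      _ ≤ 1 / 2 * (s * b * ‖gr H v‖ ^ 2) := mul_le_mul_of_nonneg_right h4 h5
  have h6 : H v + 1 / 2 * (s * b * ‖gr H v‖ ^ 2) ≤ H (v + (s * b) • gr H v) := by linarith
  have h7 : 0 ≤ s * b * ‖gr H v‖ ^ 2 := by positivity
  refine ⟨by linarith, fun heq => ?_, h6⟩
  rw [heq] at h6
  have h8 : s * b * ‖gr H v‖ ^ 2 = 0 := by linarith
  rcases mul_eq_zero.1 h8 with h9 | h9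
  · rcases mul_eq_zero.1 h9 with h10 | h10
    · exact absurd h10 hs.ne'
    · exact Or.inl h10
  · exact Or.inr (norm_eq_zero.1 (pow_eq_zero_iff (two_ne_zero) |>.1 h9))

end Pool.Agent.Y318.MN
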