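import Pool.Agent.H66.L.S8.Y318.MN.Fam
import Pool.Agent.H66.L.S8.Y318.MN.Grad
import Pool.Agent.H66.L.S8.TH80.CLX.Fam

/-!
# Diffeomorphisms close to the identity which increase a function off its critical points

Author: helper318.
-/

set_option autoImplicit false
set_option linter.unusedSectionVars false

open scoped Manifold ContDiff Topology NNReal
open Filter Set Metric

universe u

namespace Pool.Agent.Y318.MN

open Pool.Agent.H718R2.G Pool.Agent.TH80.OMS Pool.Agent.W564.SC Pool.Agent.TH290.CL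
  Pool.Agent.TH80.CLX

variable {n : ℕ} {N : Type u} [TopologicalSpace N] [T2Space N] [ChartedSpace (V n) N]
  [IsManifold (𝓡 n) ∞ N]

/-- `y` is a critical point of `h`. -/
def IsCrit (n : ℕ) {N : Type u} [TopologicalSpace N] [ChartedSpace (V n) N] (h : N → ℝ) (y : N) :
    Prop :=
  mfderiv (𝓡 n) 𝓘(ℝ, ℝ) h y = 0

theorem chart_cd {h : N → ℝ} (hh : ContMDiff (𝓡 n) 𝓘(ℝ, ℝ) ∞ h)
    {χ : OpenPartialHomeomorph N (V n)} (hχ : χ ∈ IsManifold.maximalAtlas (𝓡 n) ∞ N) {v : V n}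
    (hv : v ∈ χ.target) : ContDiffAt ℝ ∞ (fun w => h (χ.symm w)) v := by
  rw [← contMDiffAt_iff_contDiffAt]
  have h2 : ContMDiffAt (𝓡 n) (𝓡 n) ∞ χ.symm v :=
    (contMDiffOn_symm_of_mem_maximalAtlas hχ _ hv).contMDiffAt (χ.open_target.mem_nhds hv)
  exact (hh.contMDiffAt).comp v h2

theorem crit_iff {h : N → ℝ} (hh : ContMDiff (𝓡 n) 𝓘(ℝ, ℝ) ∞ h)
    {χ : OpenPartialHomeomorph N (V n)} (hχ : χ ∈ IsManifold.maximalAtlas (𝓡 n) ∞ N) {y : N}
    (hy : y ∈ χ.source) : IsCrit n h y ↔ fderiv ℝ (fun w => h (χ.symm w)) (χ y) = 0 := by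
  have hv : χ y ∈ χ.target := χ.map_source hy
  have hs : MDifferentiableAt (𝓡 n) (𝓡 n) χ.symm (χ y) :=
    ((contMDiffOn_symm_of_mem_maximalAtlas hχ _ hv).contMDiffAt
      (χ.open_target.mem_nhds hv)).mdifferentiableAt (by simp)
  have hc : MDifferentiableAt (𝓡 n) (𝓡 n) χ y :=
    ((contMDiffOn_of_mem_maximalAtlas hχ _ hy).contMDiffAt
      (χ.open_source.mem_nhds hy)).mdifferentiableAt (by simp)
  have hd : ∀ z, MDifferentiableAt (𝓡 n) 𝓘(ℝ, ℝ) h z := fun z =>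
    hh.contMDiffAt.mdifferentiableAt (by simp)
  constructor
  · intro h0
    have h1 := mfderiv_comp (I := 𝓡 n) (I' := 𝓡 n) (I'' := 𝓘(ℝ, ℝ)) (χ y) (hd (χ.symm (χ y))) hs
    rw [mfderiv_eq_fderiv] at h1
    have h2 : mfderiv (𝓡 n) 𝓘(ℝ, ℝ) h (χ.symm (χ y)) = 0 := by
      rw [χ.left_inv hy]; exact h0
    have h3 : fderiv ℝ (h ∘ χ.symm) (χ y) = 0 := by
      rw [h1, h2]
      exact ContinuousLinearMap.zero_comp _
    exact h3
  · intro h0
    have e : h =ᶠ[𝓝 y] (fun w => h (χ.symm w)) ∘ χ := by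
      filter_upwards [χ.open_source.mem_nhds hy] with z hz
      simp only [Function.comp_apply]
      rw [χ.left_inv hz]
    have hH : MDifferentiableAt (𝓡 n) 𝓘(ℝ, ℝ) (fun w => h (χ.symm w)) (χ y) :=
      ((chart_cd hh hχ hv).contMDiffAt).mdifferentiableAt (by simp)
    have h1 := mfderiv_comp (I := 𝓡 n) (I' := 𝓡 n) (I'' := 𝓘(ℝ, ℝ)) y hH hc
    rw [mfderiv_eq_fderiv, h0] at h1
    unfold IsCrit
    rw [e.mfderiv_eq, h1]
    exact ContinuousLinearMap.zero_comp _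

/-- the function in a good chart, cut off -/
noncomputable def Hx (h : N → ℝ) (χ : OpenPartialHomeomorph N (V n)) (v : V n) : ℝ :=
  (⟨3 / 4, 7 / 8, by norm_num, by norm_num⟩ : ContDiffBump (0 : V n)) v * h (χ.symm v)

theorem Hx_eq (h : N → ℝ) (χ : OpenPartialHomeomorph N (V n)) {v : V n} (hv : ‖v‖ ≤ 3 / 4) :
    Hx h χ v = h (χ.symm v) := by
  unfold Hx
  rw [ContDiffBump.one_of_mem_closedBall, one_mul]
  rw [mem_closedBall, dist_zero_right]
  exact hv

theorem Hx_zero (h : N → ℝ) (χ : OpenPartialHomeomorph N (V n)) {v : V n} (hv : 7 / 8 ≤ ‖v‖) :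
    Hx h χ v = 0 := by
  unfold Hx
  rw [ContDiffBump.zero_of_le_dist, zero_mul]
  rw [dist_zero_right]
  exact hv

theorem Hx_smooth {h : N → ℝ} (hh : ContMDiff (𝓡 n) 𝓘(ℝ, ℝ) ∞ h)
    {χ : OpenPartialHomeomorph N (V n)} {z : N} (hg : GoodChart n N χ z) :
    ContDiff ℝ ∞ (Hx h χ) := by
  rw [contDiff_iff_contDiffAt]
  intro v
  by_cases hv : v ∈ χ.target
  · exact (ContDiffBump.contDiff _).contDiffAt.mul (chart_cd hh hg.mem hv)
  · have h1 : 7 / 8 < ‖v‖ := by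
      by_contra hcon
      push Not at hcon
      apply hv
      apply hg.ball
      rw [mem_closedBall, dist_zero_right]
      linarith
    have e : Hx h χ =ᶠ[𝓝 v] fun _ => 0 := by
      filter_upwards [(isOpen_lt continuous_const continuous_norm).mem_nhds h1] with w hw
      exact Hx_zero h χ (le_of_lt hw)
    exact contDiffAt_const.congr_of_eventuallyEq e

theorem Hx_compact (h : N → ℝ) (χ : OpenPartialHomeomorph N (V n)) :
    HasCompactSupport (Hx h χ) := by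
  apply HasCompactSupport.intro (isCompact_closedBall (0 : V n) (7 / 8))
  intro v hv
  rw [mem_closedBall, dist_zero_right, not_le] at hv
  exact Hx_zero h χ hv.le

theorem Hx_fderiv (h : N → ℝ) (χ : OpenPartialHomeomorph N (V n)) {v : V n} (hv : ‖v‖ < 3 / 4) :
    fderiv ℝ (Hx h χ) v = fderiv ℝ (fun w => h (χ.symm w)) v := by
  apply Filter.EventuallyEq.fderiv_eq
  filter_upwards [(isOpen_lt continuous_norm continuous_const).mem_nhds hv] with w hw
  exact Hx_eq h χ (le_of_lt hw)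

/-- the property of the push -/
structure IsPush (n : ℕ) {N : Type u} [TopologicalSpace N] [ChartedSpace (V n) N] (h : N → ℝ)
    (O : Set N) (Φ : N → N) : Prop where
  le : ∀ y, h y ≤ h (Φ y)
  eq : ∀ y, h (Φ y) = h y → Φ y = y
  crit : ∀ y ∈ O, Φ y = y → IsCrit n h y
  fix : ∀ y, IsCrit n h y → Φ y = y

theorem IsPush.comp {h : N → ℝ} {O O' : Set N} {Φ Φ' : N → N} (H : IsPush n h O Φ)
    (H' : IsPush n h O' Φ') : IsPush n h (O ∪ O') (Φ ∘ Φ') := by
  have key : ∀ y, h (Φ (Φ' y)) = h y → Φ' y = y ∧ Φ y = y := by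
    intro y hy
    have h1 : h (Φ' y) = h y := le_antisymm (by rw [← hy]; exact H.le _) (H'.le _)
    have h2 := H'.eq y h1
    rw [h2] at hy
    exact ⟨h2, H.eq y hy⟩
  refine ⟨fun y => (H'.le y).trans (H.le _), fun y hy => ?_, fun y hy hf => ?_, fun y hy => ?_⟩
  · obtain ⟨h1, h2⟩ := key y hy
    show Φ (Φ' y) = y
    rw [h1, h2]
  · obtain ⟨h1, h2⟩ := key y (by
      have : Φ (Φ' y) = y := hf
      rw [this])
    rcases hy with hy | hy
    · exact H.crit y hy h2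
    · exact H'.crit y hy h1
  · show Φ (Φ' y) = y
    rw [H'.fix y hy, H.fix y hy]

theorem IsPush.mono {h : N → ℝ} {O O' : Set N} {Φ : N → N} (H : IsPush n h O Φ) (hO : O' ⊆ O) :
    IsPush n h O' Φ := ⟨H.le, H.eq, fun y hy => H.crit y (hO hy), H.fix⟩

/-- pushes near a point; `Φ` is the identity off a closed subset of `W`, and in some chart `Φ` increases
`h` at least by the square of the gradient near `z` -/
theorem local_push [CompactSpace N] {h : N → ℝ} (hh : ContMDiff (𝓡 n) 𝓘(ℝ, ℝ) ∞ h) (z : N)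
    (W : Set N) (hW : IsOpen W) (hzW : z ∈ W) :
    ∃ (O : Set N) (χ : OpenPartialHomeomorph N (V n)) (H : V n → ℝ), IsOpen O ∧ z ∈ O ∧
      χ ∈ IsManifold.maximalAtlas (𝓡 n) ∞ N ∧ z ∈ χ.source ∧ χ z = 0 ∧ ContDiff ℝ ∞ H ∧
      (H =ᶠ[𝓝 0] fun w => h (χ.symm w)) ∧
      ∀ (r : ℕ∞), 1 ≤ r → ∀ (F : DiffM n N r)
      (U : Set (DiffM n N r)), IsOpen[strongTop n N r] U → F ∈ U →
      ∃ (Φ : N → N) (G : DiffM n N r), G ∈ U ∧ (∀ y, G y = F (Φ y)) ∧ IsPush n h O Φ ∧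
        (∃ K, IsClosed K ∧ K ⊆ W ∧ ∀ y, y ∉ K → Φ y = y) ∧
        ∃ t : ℝ, 0 < t ∧ ∀ y ∈ χ.source, ‖χ y‖ < 1 / 4 →
          h y + t * ‖gr H (χ y)‖ ^ 2 ≤ h (Φ y) := by
  obtain ⟨χ, hg, hχW⟩ := small_chart (n := n) z W hW hzW
  set H : V n → ℝ := Hx h χ with hH
  have hHs : ContDiff ℝ ∞ H := Hx_smooth hh hg
  have hHc : HasCompactSupport H := Hx_compact h χ
  let β : ContDiffBump (0 : V n) := ⟨1 / 4, 1 / 2, by norm_num, by norm_num⟩
  have hβ1 : ∀ v, ‖v‖ ≤ 1 / 4 → β v = 1 := fun v hv => by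
    apply β.one_of_mem_closedBall
    rw [mem_closedBall, dist_zero_right]; exact hv
  have hβ0 : ∀ v, 1 / 2 ≤ ‖v‖ → β v = 0 := fun v hv => by
    apply β.zero_of_le_dist
    rw [dist_zero_right]; exact hv
  set Y : V n → V n := fun v => β v • gr H v with hY
  have hYs : ContDiff ℝ ∞ Y := β.contDiff.smul (gr_smooth H hHs)
  set b : V n → (V 1 →L[ℝ] V n) := fun v =>
    (EuclideanSpace.proj (0 : Fin 1) : V 1 →L[ℝ] ℝ).smulRight (Y v) with hb
  have hbs : ContDiff ℝ ∞ b :=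
    (ContinuousLinearMap.smulRightL ℝ (V 1) (V n)
      (EuclideanSpace.proj (0 : Fin 1) : V 1 →L[ℝ] ℝ)).contDiff.comp hYs
  have hbz : ∀ v, 1 / 2 < ‖v‖ → b v = 0 := by
    intro v hv
    ext x : 1
    show x 0 • (β v • gr H v) = 0
    rw [hβ0 v hv.le, zero_smul, smul_zero]
  obtain ⟨F₁, F₁', c, hc0, hLF, hF₁⟩ := gen_family b hbs hbz
  -- bound of the gradient
  obtain ⟨B₀, hB₀⟩ : ∃ B₀ : ℝ, ∀ v, ‖Y v‖ ≤ B₀ := by
    have hYc : HasCompactSupport Y := by
      apply HasCompactSupport.intro (isCompact_closedBall (0 : V n) (1 / 2))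
      intro v hv
      rw [mem_closedBall, dist_zero_right, not_le] at hv
      show β v • gr H v = 0
      rw [hβ0 v hv.le, zero_smul]
    exact hYc.exists_bound_of_continuous hYs.continuous
  obtain ⟨κ, hκ0, hκ⟩ := grad_step H hHs hHc
  refine ⟨χ.source ∩ χ ⁻¹' ball 0 (1 / 4), χ, H, χ.isOpen_inter_preimage isOpen_ball,
    ⟨hg.src, by rw [mem_preimage, hg.zero]; exact mem_ball_self (by norm_num)⟩, hg.mem, hg.src,
    hg.zero, hHs, ?_, ?_⟩
  · filter_upwards [ball_mem_nhds (0 : V n) (ε := 3 / 4) (by norm_num)] with w hw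
    rw [mem_ball, dist_zero_right] at hw
    exact Hx_eq h χ hw.le
  intro r hr F U hU hFU
  obtain ⟨Ψ, G, hfam, hG0, hG, -, -, -, hΨs, hΨo⟩ := push_family r F hg hLF
  obtain ⟨κ', hκ'0, hκ'⟩ := fam_mem r hr G hfam z U hU (by rw [hG0]; exact hFU)
  -- the parameter
  obtain ⟨t, ht0, ht1, ht2, ht3, ht4⟩ : ∃ t : ℝ, 0 < t ∧ t < κ ∧ t < κ' ∧ t < c ∧
      t * (|B₀| + 1) ≤ 1 / 4 := by
    have hB : 0 < 1 / (4 * (|B₀| + 1)) := by positivity
    refine ⟨min (min κ κ') (min c (1 / (4 * (|B₀| + 1)))) / 2, by positivity, ?_, ?_, ?_, ?_⟩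
    · have := min_le_left (min κ κ') (min c (1 / (4 * (|B₀| + 1))))
      have := min_le_left κ κ'
      have h1 : 0 < min (min κ κ') (min c (1 / (4 * (|B₀| + 1)))) := by positivity
      linarith
    · have := min_le_left (min κ κ') (min c (1 / (4 * (|B₀| + 1))))
      have := min_le_right κ κ'
      have h1 : 0 < min (min κ κ') (min c (1 / (4 * (|B₀| + 1)))) := by positivity
      linarith
    · have := min_le_right (min κ κ') (min c (1 / (4 * (|B₀| + 1))))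
      have := min_le_left c (1 / (4 * (|B₀| + 1)))
      have h1 : 0 < min (min κ κ') (min c (1 / (4 * (|B₀| + 1)))) := by positivity
      linarith
    · have := min_le_right (min κ κ') (min c (1 / (4 * (|B₀| + 1))))
      have := min_le_right c (1 / (4 * (|B₀| + 1)))
      have h1 : 0 < min (min κ κ') (min c (1 / (4 * (|B₀| + 1)))) := by positivity
      have h2 : min (min κ κ') (min c (1 / (4 * (|B₀| + 1)))) / 2 ≤ 1 / (4 * (|B₀| + 1)) := by
        linarith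
      have h3 : 0 ≤ |B₀| + 1 := by positivity
      calc min (min κ κ') (min c (1 / (4 * (|B₀| + 1)))) / 2 * (|B₀| + 1)
          ≤ 1 / (4 * (|B₀| + 1)) * (|B₀| + 1) := mul_le_mul_of_nonneg_right h2 h3
        _ = 1 / 4 := by field_simp
  set s : V 1 := EuclideanSpace.single 0 t with hs
  have hsn : ‖s‖ = t := by rw [hs, EuclideanSpace.norm_single, Real.norm_eq_abs, abs_of_pos ht0]
  have hs0 : s 0 = t := by rw [hs]; simp
  have hF₂ : ∀ v, F₁ (s, v) = v + (t * β v) • gr H v := by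
    intro v
    rw [hF₁ s v (by rw [hsn]; exact ht3)]
    show v + s 0 • (β v • gr H v) = _
    rw [hs0, smul_smul]
  -- the values in the chart
  have hval : ∀ y ∈ χ.symm '' closedBall (0 : V n) (1 / 2), y ∈ χ.source ∧ ‖χ y‖ ≤ 1 / 2 ∧
      h y = H (χ y) ∧ h (Ψ s y) = H (χ y + (t * β (χ y)) • gr H (χ y)) ∧
      (χ y + (t * β (χ y)) • gr H (χ y) = χ y ↔ Ψ s y = y) := by
    rintro _ ⟨v, hv, rfl⟩
    have hvt : v ∈ χ.target := hg.ball (closedBall_subset_closedBall (by norm_num) hv)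
    have hsrc : χ.symm v ∈ χ.source := χ.map_target hvt
    have hvn : ‖v‖ ≤ 1 / 2 := by rwa [mem_closedBall, dist_zero_right] at hv
    have e : χ (χ.symm v) = v := χ.right_inv hvt
    obtain ⟨k1, k2⟩ := hΨs s _ hsrc
    rw [e, hF₂] at k2
    have hsmall : ‖v + (t * β v) • gr H v‖ ≤ 3 / 4 := by
      have h1 : (t * β v) • gr H v = t • Y v := by rw [hY]; simp only; rw [smul_smul]
      rw [h1]
      refine (norm_add_le _ _).trans ?_
      rw [norm_smul, Real.norm_eq_abs, abs_of_pos ht0]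
      have h2 : ‖Y v‖ ≤ |B₀| + 1 := (hB₀ v).trans ((le_abs_self _).trans (by linarith))
      have h3 : t * ‖Y v‖ ≤ 1 / 4 := (mul_le_mul_of_nonneg_left h2 ht0.le).trans ht4
      linarith
    rw [e]
    refine ⟨hsrc, hvn, (Hx_eq h χ (by linarith)).symm, ?_, ?_⟩
    · rw [hH, Hx_eq h χ hsmall, ← k2, χ.left_inv k1]
    · constructor
      · intro h1
        rw [h1] at k2
        rw [← χ.left_inv k1, k2]
      · intro h1
        rw [← k2, h1, e]
  have hstep : ∀ v, H v ≤ H (v + (t * β v) • gr H v) ∧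
      (H (v + (t * β v) • gr H v) = H v → β v = 0 ∨ gr H v = 0) ∧
      H v + 1 / 2 * (t * β v * ‖gr H v‖ ^ 2) ≤ H (v + (t * β v) • gr H v) := fun v =>
    hκ t ht0 ht1 (β v) β.nonneg β.le_one v
  have hball : closedBall (0 : V n) (1 / 2) ⊆ χ.target :=
    (closedBall_subset_closedBall (by norm_num)).trans hg.ball
  refine ⟨Ψ s, G s, hκ' s (by rw [hsn]; exact ht2), hG s, ⟨fun y => ?_, fun y hy => ?_,
    fun y hy hf => ?_, fun y hy => ?_⟩, ⟨χ.symm '' closedBall (0 : V n) (1 / 2), ?_, ?_, hΨo s⟩,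
    ⟨1 / 2 * t, by positivity, fun y hy hyb => ?_⟩⟩
  · by_cases hyA : y ∈ χ.symm '' closedBall (0 : V n) (1 / 2)
    · obtain ⟨-, -, h3, h4, -⟩ := hval y hyA
      rw [h3, h4]
      exact (hstep _).1
    · rw [hΨo s y hyA]
  · by_cases hyA : y ∈ χ.symm '' closedBall (0 : V n) (1 / 2)
    · obtain ⟨-, -, h3, h4, h5⟩ := hval y hyA
      rw [h3, h4] at hy
      apply h5.1
      rcases (hstep _).2.1 hy with h6 | h6
      · rw [h6, mul_zero, zero_smul, add_zero]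
      · rw [h6, smul_zero, add_zero]
    · exact hΨo s y hyA
  · obtain ⟨hysrc, hyb⟩ := hy
    have hyb' : ‖χ y‖ < 1 / 4 := by rwa [mem_preimage, mem_ball, dist_zero_right] at hyb
    have hyA : y ∈ χ.symm '' closedBall (0 : V n) (1 / 2) :=
      ⟨χ y, by rw [mem_closedBall, dist_zero_right]; linarith, χ.left_inv hysrc⟩
    obtain ⟨-, -, -, -, h5⟩ := hval y hyA
    have h6 := h5.2 hf
    rw [hβ1 _ hyb'.le, mul_one] at h6
    have h7 : gr H (χ y) = 0 := by
      have h8 : t • gr H (χ y) = 0 := by simpa using h6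
      rcases smul_eq_zero.1 h8 with h9 | h9
      · exact absurd h9 ht0.ne'
      · exact h9
    rw [crit_iff hh hg.mem hysrc, ← Hx_fderiv h χ (by linarith)]
    exact (gr_eq_zero H _).1 h7
  · by_cases hyA : y ∈ χ.symm '' closedBall (0 : V n) (1 / 2)
    · obtain ⟨h1, h2, -, -, h5⟩ := hval y hyA
      apply h5.1
      have h3 : gr H (χ y) = 0 := by
        rw [gr_eq_zero, hH, Hx_fderiv h χ (by linarith)]
        exact (crit_iff hh hg.mem h1).1 hy
      rw [h3, smul_zero, add_zero]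
    · exact hΨo s y hyA
  · exact ((isCompact_closedBall (0 : V n) (1 / 2)).image_of_continuousOn
      (χ.continuousOn_symm.mono hball)).isClosed
  · rintro _ ⟨v, hv, rfl⟩
    exact hχW (χ.map_target (hball hv))
  · have hyA : y ∈ χ.symm '' closedBall (0 : V n) (1 / 2) :=
      ⟨χ y, by rw [mem_closedBall, dist_zero_right]; linarith, χ.left_inv hy⟩
    obtain ⟨-, -, h3, h4, -⟩ := hval y hyA
    have h5 := (hstep (χ y)).2.2
    rw [← h4, ← h3, hβ1 _ hyb.le] at h5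
    linarith

/-- **Pushes.** -/
theorem exists_push [CompactSpace N] {h : N → ℝ} (hh : ContMDiff (𝓡 n) 𝓘(ℝ, ℝ) ∞ h) {r : ℕ∞}
    (hr : 1 ≤ r) (F : DiffM n N r) (U : Set (DiffM n N r)) (hU : IsOpen[strongTop n N r] U)
    (hFU : F ∈ U) :
    ∃ (Φ : N → N) (G : DiffM n N r), G ∈ U ∧ (∀ y, G y = F (Φ y)) ∧ IsPush n h univ Φ := by
  have key : ∀ s : Set N, IsCompact s → ∃ O : Set N, s ⊆ O ∧ ∀ F ∈ U,
      ∃ (Φ : N → N) (G : DiffM n N r), G ∈ U ∧ (∀ y, G y = F (Φ y)) ∧ IsPush n h O Φ := by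
    intro s hs
    refine hs.induction_on (p := fun s => ∃ O : Set N, s ⊆ O ∧ ∀ F ∈ U,
      ∃ (Φ : N → N) (G : DiffM n N r), G ∈ U ∧ (∀ y, G y = F (Φ y)) ∧ IsPush n h O Φ)
      ?_ ?_ ?_ ?_
    · exact ⟨∅, Subset.rfl, fun F hF => ⟨id, F, hF, fun y => rfl,
        ⟨fun _ => le_rfl, fun _ _ => rfl, fun _ hy => hy.elim, fun _ _ => rfl⟩⟩⟩
    · rintro s t hst ⟨O, hO, H⟩
      exact ⟨O, hst.trans hO, H⟩
    · rintro s t ⟨O, hO, H⟩ ⟨O', hO', H'⟩
      refine ⟨O ∪ O', union_subset_union hO hO', fun F hF => ?_⟩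
      obtain ⟨Φ, G, h1, h2, h3⟩ := H F hF
      obtain ⟨Φ', G', h1', h2', h3'⟩ := H' G h1
      refine ⟨Φ ∘ Φ', G', h1', fun y => ?_, h3.comp h3'⟩
      rw [h2', h2]
      rfl
    · intro z _
      obtain ⟨O, χ, H', hO, hz, -, -, -, -, -, H⟩ := local_push hh z univ isOpen_univ (mem_univ z)
      refine ⟨O, mem_nhdsWithin_of_mem_nhds (hO.mem_nhds hz), O, Subset.rfl, fun F hF => ?_⟩
      obtain ⟨Φ, G, h1, h2, h3, -⟩ := H r hr F U hU hF
      exact ⟨Φ, G, h1, h2, h3⟩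
  obtain ⟨O, hO, H⟩ := key univ isCompact_univ
  obtain ⟨Φ, G, h1, h2, h3⟩ := H F hFU
  exact ⟨Φ, G, h1, h2, h3.mono hO⟩

end Pool.Agent.Y318.MN
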