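import Pool.Agent.H66.L.S8.Y504.CO.Asm
import Pool.Agent.H66.L.S8.Y318.MN.Push

/-!
# Nonwandering points of `F ∘ Φ` when `h ∘ F ≥ h` and `Φ` increases `h` off the critical points

Author: helper318.
-/

set_option autoImplicit false
set_option linter.unusedSectionVars false

open scoped Manifold ContDiff Topology
open Filter Set Metric

universe u

namespace Pool.Agent.Y318.MN

open Pool.Agent.H718R2.G Pool.Agent.TH80.OMS Pool.Agent.Y504.CO

variable {n : ℕ} {N : Type u} [TopologicalSpace N] [T2Space N] [CompactSpace N]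
  [ChartedSpace (V n) N] [IsManifold (𝓡 n) ∞ N]

/-- The points whose whole orbit under `F` consists of critical points of `h`. -/
def CritInv (n : ℕ) {N : Type u} [TopologicalSpace N] [ChartedSpace (V n) N] {r : ℕ∞}
    (F : DiffM n N r) (h : N → ℝ) : Set N :=
  {x | ∀ k : ℕ, IsCrit n h (F^[k] x) ∧ IsCrit n h (F.symm^[k] x)}

section dyn

variable {r : ℕ∞} {F G : DiffM n N r} {h : N → ℝ} {Φ : N → N} (hc : Continuous h)
  (hm : ∀ x, h x ≤ h (F x)) (hG : ∀ y, G y = F (Φ y)) (hΦ : IsPush n h univ Φ)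

include hm hG hΦ in
theorem g_mono (x : N) : h x ≤ h (G x) := by
  rw [hG]
  exact (hΦ.le x).trans (hm _)

include hm hG hΦ in
theorem g_mono_iter (x : N) (k : ℕ) : h x ≤ h (G^[k] x) := by
  induction k with
  | zero => exact le_rfl
  | succ k ih =>
    rw [Function.iterate_succ_apply']
    exact ih.trans (g_mono hm hG hΦ _)

include hc hm hG hΦ in
theorem omega_const {x : N} (hx : x ∈ Omega G) : h (G x) = h x := by
  by_contra hne
  have hlt : h x < h (G x) := lt_of_le_of_ne (g_mono hm hG hΦ x) (Ne.symm hne)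
  obtain ⟨c, hc1, hc2⟩ := exists_between hlt
  have hW : IsOpen ({y | h y < c} ∩ {y | c < h (G y)}) :=
    (isOpen_lt hc continuous_const).inter (isOpen_lt continuous_const (hc.comp G.continuous))
  obtain ⟨k, hk, y, hy, hky⟩ := hx _ hW ⟨hc1, hc2⟩
  obtain ⟨m, rfl⟩ : ∃ m, k = m + 1 := ⟨k - 1, by omega⟩
  have h1 : h (G y) ≤ h (G^[m] (G y)) := g_mono_iter hm hG hΦ _ m
  rw [← Function.iterate_succ_apply] at h1
  have h2 : c < h (G y) := hy.2
  have h3 : h (G^[m + 1] y) < c := hky.1
  linarith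

theorem omega_fwd {x : N} (hx : x ∈ Omega G) : G x ∈ Omega G := by
  intro W hW hxW
  obtain ⟨k, hk, y, hy, hky⟩ := hx (G ⁻¹' W) (hW.preimage G.continuous) hxW
  refine ⟨k, hk, G y, hy, ?_⟩
  rw [← Function.iterate_succ_apply, Function.iterate_succ_apply']
  exact hky

theorem omega_bwd {x : N} (hx : x ∈ Omega G) : G.symm x ∈ Omega G := by
  intro W hW hxW
  obtain ⟨k, hk, y, hy, hky⟩ := hx (G.symm ⁻¹' W) (hW.preimage G.symm.continuous) hxW
  refine ⟨k, hk, G.symm y, hy, ?_⟩
  have e : G (G^[k] (G.symm y)) = G^[k] y := by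
    rw [← Function.iterate_succ_apply' (⇑G) k (G.symm y), Function.iterate_succ_apply,
      G.apply_symm_apply]
  have e2 : G^[k] (G.symm y) = G.symm (G^[k] y) := by rw [← e, G.symm_apply_apply]
  rw [e2]
  exact hky

include hc hm hG hΦ in
theorem omega_fix {x : N} (hx : x ∈ Omega G) : Φ x = x ∧ IsCrit n h x ∧ G x = F x := by
  have h1 := omega_const hc hm hG hΦ hx
  have h2 : h (Φ x) = h x := by
    refine le_antisymm ?_ (hΦ.le x)
    rw [← h1, hG]
    exact hm _
  have h3 := hΦ.eq x h2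
  exact ⟨h3, hΦ.crit x (mem_univ x) h3, by rw [hG, h3]⟩

include hc hm hG hΦ in
theorem omega_iter {x : N} (hx : x ∈ Omega G) (k : ℕ) :
    F^[k] x = G^[k] x ∧ G^[k] x ∈ Omega G := by
  induction k with
  | zero => exact ⟨rfl, hx⟩
  | succ k ih =>
    rw [Function.iterate_succ_apply', Function.iterate_succ_apply', ih.1,
      (omega_fix hc hm hG hΦ ih.2).2.2]
    refine ⟨rfl, ?_⟩
    rw [← (omega_fix hc hm hG hΦ ih.2).2.2]
    exact omega_fwd ih.2

include hc hm hG hΦ in
theorem omega_symm {x : N} (hx : x ∈ Omega G) : F.symm x = G.symm x := by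
  have h1 := omega_fix hc hm hG hΦ (omega_bwd hx)
  have h2 := h1.2.2
  rw [G.apply_symm_apply] at h2
  calc F.symm x = F.symm (F (G.symm x)) := by rw [← h2]
    _ = G.symm x := F.symm_apply_apply _

include hc hm hG hΦ in
theorem omega_iter_symm {x : N} (hx : x ∈ Omega G) (k : ℕ) :
    F.symm^[k] x = G.symm^[k] x ∧ G.symm^[k] x ∈ Omega G := by
  induction k with
  | zero => exact ⟨rfl, hx⟩
  | succ k ih =>
    rw [Function.iterate_succ_apply', Function.iterate_succ_apply', ih.1,
      omega_symm hc hm hG hΦ ih.2]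
    exact ⟨rfl, omega_bwd ih.2⟩

include hc hm hG hΦ in
theorem omega_sub : Omega G ⊆ CritInv n F h := by
  intro x hx k
  obtain ⟨h1, h2⟩ := omega_iter hc hm hG hΦ hx k
  obtain ⟨h3, h4⟩ := omega_iter_symm hc hm hG hΦ hx k
  rw [h1, h3]
  exact ⟨(omega_fix hc hm hG hΦ h2).2.1, (omega_fix hc hm hG hΦ h4).2.1⟩

include hc hm hG hΦ in
/-- periodic points of `F` are critical, if `F` and `G` are conjugate and these points are finite
in number -/
theorem per_crit (hconj : OmegaConj F G) (hfin : (Omega F).Finite) {x : N} (hx : x ∈ Per F) :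
    IsCrit n h x := by
  obtain ⟨k, hk, hxk⟩ := hx
  have hcard := ncard_conj F.continuous G.continuous hconj hk
  have hsub : {y | G^[k] y = y} ⊆ {y | F^[k] y = y} := by
    intro y hy
    have h1 := (omega_iter hc hm hG hΦ (per_mem_omega hk hy) k).1
    show F^[k] y = y
    rw [h1]
    exact hy
  have hfin' : {y | F^[k] y = y}.Finite := hfin.subset fun y hy => per_mem_omega hk hy
  have heq := Set.eq_of_subset_of_ncard_le hsub hcard.le hfin'
  have h2 : x ∈ {y | G^[k] y = y} := by rw [heq]; exact hxk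
  exact (omega_fix hc hm hG hΦ (per_mem_omega hk h2)).2.1

end dyn

/-- **The transfer.** -/
theorem transfer {r : ℕ∞} (hr : 1 ≤ r) {F : DiffM n N r} (hF : OmegaStable n N r F) {h : N → ℝ}
    (hh : ContMDiff (𝓡 n) 𝓘(ℝ, ℝ) ∞ h) (hm : ∀ x, h x ≤ h (F x)) :
    ∃ G : DiffM n N r, OmegaConj F G ∧ Omega G ⊆ CritInv n F h ∧
      (∀ x ∈ Omega G, ∀ k : ℕ, F^[k] x = G^[k] x) ∧
      ((Omega F).Finite → ∀ x ∈ Per F, IsCrit n h x) := by
  obtain ⟨U, hU, hFU, hconj⟩ := hF
  obtain ⟨Φ, G, hGU, hG, hΦ⟩ := exists_push hh hr F U hU hFU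
  exact ⟨G, hconj G hGU, omega_sub hh.continuous hm hG hΦ,
    fun x hx k => (omega_iter hh.continuous hm hG hΦ hx k).1,
    fun hfin x hx => per_crit hh.continuous hm hG hΦ (hconj G hGU) hfin hx⟩

theorem countable_of_conj {F G : N → N} (h : OmegaConj F G) (hc : (Omega G).Countable) :
    (Omega F).Countable := by
  obtain ⟨h, -⟩ := h
  have : Countable (Omega G) := hc.to_subtype
  exact Set.countable_coe_iff.1 h.injective.countable

end Pool.Agent.Y318.MN
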