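import Pool.Agent.H66.L.S8.Y318.MN.Axm

/-!
# The push has no cycles; the theorem on Axiom A approximations

Author: helper318.
-/

set_option autoImplicit false
set_option linter.unusedSectionVars false

open scoped Manifold ContDiff Topology NNReal
open Filter Set Metric

universe u

namespace Pool.Agent.Y318.MN

open Pool.Agent.H718R2.G Pool.Agent.TH80.OMS Pool.Agent.Y504.CO

/-- the value on a stable set -/
theorem le_of_stab {X : Type u} [TopologicalSpace X] {g : X → X} {h : X → ℝ} (hc : Continuous h)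
    (hmono : ∀ x, h x ≤ h (g x)) {x z : X} (hx : ∀ k : ℕ, h (g^[k] x) = h x)
    (hz : z ∈ StabSet g x) (k : ℕ) : h (g^[k] z) ≤ h x := by
  by_contra hcon
  push Not at hcon
  have hV : IsOpen {q : X × X | h q.2 - h q.1 < h (g^[k] z) - h x} :=
    isOpen_lt ((hc.comp continuous_snd).sub (hc.comp continuous_fst)) continuous_const
  obtain ⟨K, hK⟩ := hz _ hV fun w => by
    show h w - h w < _
    linarith
  have h1 : h (g^[k + K] z) - h (g^[k + K] x) < h (g^[k] z) - h x := hK (k + K) (by omega)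
  rw [hx] at h1
  have h2 : ∀ j : ℕ, h (g^[k] z) ≤ h (g^[k + j] z) := by
    intro j
    induction j with
    | zero => exact le_rfl
    | succ j ih =>
      rw [← add_assoc, Function.iterate_succ_apply']
      exact ih.trans (hmono _)
  linarith [h2 K]

/-- two periodic points, one in the stable set of the other, are equal -/
theorem eq_of_stab {X : Type u} [TopologicalSpace X] [T2Space X] {g : X → X} {x z : X} {a b : ℕ}
    (ha : 1 ≤ a) (hb : 1 ≤ b) (hx : g^[a] x = x) (hz : g^[b] z = z) (h : z ∈ StabSet g x) :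
    x = z := by
  by_contra hne
  have hV : IsOpen ({(x, z)}ᶜ : Set (X × X)) := isClosed_singleton.isOpen_compl
  obtain ⟨K, hK⟩ := h _ hV fun w => by
    rw [mem_compl_iff, mem_singleton_iff, Prod.mk.injEq]
    rintro ⟨h1, h2⟩
    exact hne (h1.symm.trans h2)
  have h1 := hK (a * b * (K + 1)) (by
    have h3 : 1 ≤ a * b := Nat.mul_pos ha hb
    nlinarith)
  have h2 : g^[a * b * (K + 1)] x = x := by
    rw [mul_assoc]
    exact iter_mul_per hx _
  have h3 : g^[a * b * (K + 1)] z = z := by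
    rw [mul_comm a b, mul_assoc]
    exact iter_mul_per hz _
  rw [h2, h3] at h1
  exact h1 rfl

variable {n : ℕ} {N : Type u} [TopologicalSpace N] [T2Space N] [CompactSpace N]
  [ChartedSpace (V n) N] [IsManifold (𝓡 n) ∞ N]

theorem symm_per {r : ℕ∞} (G : DiffM n N r) {x : N} {m : ℕ} (hx : G^[m] x = x) :
    G.symm^[m] x = x := by
  have key : ∀ (k : ℕ) (y : N), G.symm^[k] (G^[k] y) = y := by
    intro k
    induction k with
    | zero => intro y; rfl
    | succ k ih =>
      intro y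
      rw [Function.iterate_succ_apply, Function.iterate_succ_apply', G.symm_apply_apply]
      exact ih y
  conv_lhs => rw [← hx]
  exact key m x

section

variable {r : ℕ∞} {F G : DiffM n N r} {h : N → ℝ} {Φ : N → N} (hc : Continuous h)
  (hm : ∀ x, h x ≤ h (F x)) (hG : ∀ y, G y = F (Φ y)) (hΦ : IsPush n h univ Φ)

include hm hG hΦ in
theorem fix_of_eq {x : N} (hx : h (G x) = h x) : Φ x = x ∧ IsCrit n h x ∧ G x = F x := by
  have h2 : h (Φ x) = h x := by
    refine le_antisymm ?_ (hΦ.le x)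
    rw [← hx, hG]
    exact hm _
  have h3 := hΦ.eq x h2
  exact ⟨h3, hΦ.crit x (mem_univ x) h3, by rw [hG, h3]⟩

include hc hm hG hΦ in
theorem h_omega {x : N} (hx : x ∈ Omega G) (k : ℕ) :
    h (G^[k] x) = h x ∧ h (G.symm^[k] x) = h x := by
  induction k with
  | zero => exact ⟨rfl, rfl⟩
  | succ k ih =>
    constructor
    · rw [Function.iterate_succ_apply',
        omega_const hc hm hG hΦ (omega_iter hc hm hG hΦ hx k).2, ih.1]
    · rw [Function.iterate_succ_apply']
      have h1 := (omega_iter_symm hc hm hG hΦ hx k).2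
      have h2 := omega_const hc hm hG hΦ (omega_bwd h1)
      rw [G.apply_symm_apply] at h2
      rw [← h2, ih.2]

include hm hG hΦ in
theorem critInv_of_const {z : N} {a : ℝ}
    (hz : ∀ k : ℕ, h (G^[k] z) = a ∧ h (G.symm^[k] z) = a) : z ∈ CritInv n F h := by
  have hfw : ∀ k : ℕ, F^[k] z = G^[k] z := by
    intro k
    induction k with
    | zero => rfl
    | succ k ih =>
      rw [Function.iterate_succ_apply', Function.iterate_succ_apply', ih]
      refine (fix_of_eq hm hG hΦ ?_).2.2.symm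
      rw [← Function.iterate_succ_apply' (⇑G) k z, (hz (k + 1)).1, (hz k).1]
  have hbwG : ∀ k : ℕ, G (G.symm^[k + 1] z) = G.symm^[k] z := by
    intro k
    rw [Function.iterate_succ_apply', G.apply_symm_apply]
  have hbwe : ∀ k : ℕ, h (G (G.symm^[k + 1] z)) = h (G.symm^[k + 1] z) := by
    intro k
    rw [hbwG, (hz k).2, (hz (k + 1)).2]
  have hbw : ∀ k : ℕ, F.symm^[k] z = G.symm^[k] z := by
    intro k
    induction k with
    | zero => rfl
    | succ k ih =>
      rw [Function.iterate_succ_apply', ih, ← hbwG k, (fix_of_eq hm hG hΦ (hbwe k)).2.2,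
        F.symm_apply_apply]
  have hcr : ∀ k : ℕ, IsCrit n h (G^[k] z) := by
    intro k
    refine (fix_of_eq hm hG hΦ ?_).2.1
    rw [← Function.iterate_succ_apply' (⇑G) k z, (hz (k + 1)).1, (hz k).1]
  intro k
  refine ⟨by rw [hfw]; exact hcr k, ?_⟩
  rw [hbw]
  rcases k with _ | k
  · exact hcr 0
  · exact (fix_of_eq hm hG hΦ (hbwe k)).2.1

include hc hm hG hΦ in
/-- **No cycles.** -/
theorem no_cycle (hfin : (CritInv n F h).Finite) : FiniteNoCycle G := by
  have hOf : (Omega G).Finite := hfin.subset (omega_sub hc hm hG hΦ)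
  refine ⟨hOf, ?_⟩
  intro k O hinj hO hcyc
  choose p hp hpO using hO
  choose x hx x' hx' z hz hz' using hcyc
  -- points of the orbits
  have hmem : ∀ i, ∀ y ∈ O i, y ∈ Omega G ∧ h y = h (p i) ∧ y ∈ Per G := by
    intro i y hy
    rw [hpO i] at hy
    obtain ⟨j, rfl⟩ := hy
    obtain ⟨m, hm1, hmp⟩ := hp i
    have h1 : p i ∈ Omega G := per_mem_omega hm1 hmp
    refine ⟨(omega_iter hc hm hG hΦ h1 j).2, (h_omega hc hm hG hΦ h1 j).1, m, hm1, ?_⟩
    rw [← Function.iterate_add_apply, add_comm, Function.iterate_add_apply, hmp]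
  have hup : ∀ i k, h (G^[k] (z i)) ≤ h (p (i + 1)) := by
    intro i k
    have h1 := hmem (i + 1) (x' i) (hx' i)
    rw [← h1.2.1]
    exact le_of_stab hc (g_mono hm hG hΦ) (fun k => (h_omega hc hm hG hΦ h1.1 k).1) (hz' i) k
  have hmono' : ∀ x, h (G.symm x) ≤ h x := by
    intro x
    have := g_mono hm hG hΦ (G.symm x)
    rwa [G.apply_symm_apply] at this
  have hlo : ∀ i k, h (p i) ≤ h (G.symm^[k] (z i)) := by
    intro i k
    have h1 := hmem i (x i) (hx i)
    rw [← h1.2.1]
    have h2 := le_of_stab (g := G.symm) (h := fun y => - h y) hc.neg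
      (fun y => neg_le_neg (hmono' y)) (x := x i) (z := z i)
      (fun k => by rw [(h_omega hc hm hG hΦ h1.1 k).2]) (hz i) k
    exact neg_le_neg_iff.1 h2
  have hle : ∀ i, h (p i) ≤ h (p (i + 1)) := fun i => (hlo i 0).trans (hup i 0)
  have heq : ∀ i, h (p i) = h (p (i + 1)) := by
    have hs : ∑ i, h (p (i + 1)) = ∑ i, h (p i) :=
      Equiv.sum_comp (Equiv.addRight (1 : Fin (k + 2))) fun i => h (p i)
    intro i
    exact (Finset.sum_eq_sum_iff_of_le (s := Finset.univ) fun i _ => hle i).1 hs.symm i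
      (Finset.mem_univ i)
  -- the connecting orbit is critical
  have hup0 : ∀ (w : N) (k : ℕ), h w ≤ h (G^[k] w) := fun w k => g_mono_iter hm hG hΦ w k
  have hlo0 : ∀ (w : N) (k : ℕ), h (G.symm^[k] w) ≤ h w := by
    intro w k
    induction k with
    | zero => exact le_rfl
    | succ k ih => rw [Function.iterate_succ_apply']; exact (hmono' _).trans ih
  have hcr : z 0 ∈ CritInv n F h := by
    refine critInv_of_const hm hG hΦ (a := h (p 0)) fun k => ⟨?_, ?_⟩
    · refine le_antisymm ((hup 0 k).trans (heq 0).symm.le) ?_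
      exact (hlo 0 0).trans (hup0 _ k)
    · refine le_antisymm ?_ (hlo 0 k)
      exact (hlo0 _ k).trans ((hup 0 0).trans (heq 0).symm.le)
  obtain ⟨b, hb1, hb⟩ := per_of_critInv hG hΦ hfin hcr
  obtain ⟨a, ha1, ha⟩ := (hmem 0 (x 0) (hx 0)).2.2
  obtain ⟨a', ha1', ha'⟩ := (hmem (0 + 1) (x' 0) (hx' 0)).2.2
  have e1 : x' 0 = z 0 := eq_of_stab ha1' hb1 ha' hb (hz' 0)
  have e2 : x 0 = z 0 := eq_of_stab (g := G.symm) ha1 hb1 (symm_per G ha) (symm_per G hb) (hz 0)
  have h1 : z 0 ∈ orb G (p 0) := by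
    have := hx 0
    rw [hpO 0, e2] at this
    exact this
  have h2 : z 0 ∈ orb G (p (0 + 1)) := by
    have := hx' 0
    rw [hpO (0 + 1), e1] at this
    exact this
  have h3 : O 0 = O (0 + 1) := by
    rw [hpO 0, hpO (0 + 1)]
    exact (orb_eq (hp 0) h1).symm.trans (orb_eq (hp (0 + 1)) h2)
  have h4 := hinj h3
  have h5 : (1 : Fin (k + 2)) = 0 := by
    rw [zero_add] at h4
    exact h4.symm
  exact absurd h5 (by simp)

end

/-- **Axiom A approximations.** -/
theorem axiomA_approx {r : ℕ∞} (hr : 1 ≤ r) (F : DiffM n N r) {h : N → ℝ}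
    (hh : ContMDiff (𝓡 n) 𝓘(ℝ, ℝ) ∞ h) (hm : ∀ x, h x ≤ h (F x))
    (hnd : ∀ z ∈ CritInv n F h, Nondeg n h z) (U : Set (DiffM n N r))
    (hU : IsOpen[strongTop n N r] U) (hFU : F ∈ U) :
    ∃ G ∈ U, (Omega G).Finite ∧ Omega G ⊆ Per G ∧ (∀ p ∈ Per G, HypAt n G p) ∧
      FiniteNoCycle G ∧ Omega G = CritInv n F h ∧ ∀ x, h x ≤ h (G x) := by
  have hfin := critInv_finite hh hnd
  obtain ⟨Φ, G, hGU, hG, hΦ, hgrow⟩ := exists_push_grow hh hr F U hU hFU hfin.toFinset
    (fun p hp => by
      rw [Set.Finite.mem_toFinset] at hp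
      exact ⟨(hp 0).1, hnd p hp⟩)
  have hsub := omega_sub hh.continuous hm hG hΦ
  have hper : CritInv n F h ⊆ Per G := fun x hx => per_of_critInv hG hΦ hfin hx
  have hPO : Per G ⊆ Omega G := fun x hx => by
    obtain ⟨m, hm1, h1⟩ := hx
    exact per_mem_omega hm1 h1
  refine ⟨G, hGU, hfin.subset hsub, hsub.trans hper, fun p hp => ?_,
    no_cycle hh.continuous hm hG hΦ hfin, Subset.antisymm hsub (hper.trans hPO),
    g_mono hm hG hΦ⟩
  have hpC := hsub (hPO hp)
  exact hyp_of_grow hr hh hm hG hΦ (hpC 0).1 (hgrow p (by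
    rw [Set.Finite.mem_toFinset]
    exact hpC))

end Pool.Agent.Y318.MN
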