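import Pool.Agent.H66.L.S8.TH80.OMS.Push

/-!
# Compactly supported families of diffeomorphisms of `ℝⁿ` with a given first order term

The proof follows `dil_family` (TH80) and `Pool.Agent.Y504.CO.LF` (helper504).

Author: helper318.
-/

set_option autoImplicit false
set_option linter.unusedSectionVars false

open scoped Manifold ContDiff Topology NNReal
open Filter Set Metric

universe u

namespace Pool.Agent.Y318.MN

open Pool.Agent.H718R2.G Pool.Agent.TH80.OMS

theorem gen_family {j n : ℕ} (b : V n → (V j →L[ℝ] V n)) (hbs : ContDiff ℝ ∞ b)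
    (hbz : ∀ v, 1 / 2 < ‖v‖ → b v = 0) :
    ∃ (F F' : V j × V n → V n) (c : ℝ), 0 < c ∧ LFam j n F F' ∧
      ∀ x v, ‖x‖ < c → F (x, v) = v + b v x := by
  have hbc : HasCompactSupport b := by
    apply HasCompactSupport.intro (isCompact_closedBall (0 : V n) (1 / 2))
    intro v hv
    rw [mem_closedBall, dist_zero_right, not_le] at hv
    exact hbz v hv
  obtain ⟨C, hC⟩ := ContDiff.lipschitzWith_of_hasCompactSupport (𝕂 := ℝ) (n := ∞)
    hbc hbs (by simp)
  obtain ⟨B₀, hB₀⟩ := hbc.exists_bound_of_continuous hbs.continuous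
  set B : ℝ := max B₀ 0 with hB
  have hB0 : 0 ≤ B := le_max_right _ _
  have hbb : ∀ v, ‖b v‖ ≤ B := fun v => (hB₀ v).trans (le_max_left _ _)
  set c : ℝ := 1 / (8 * (C + 1)) with hc
  have hC0 : (0 : ℝ) ≤ C := C.coe_nonneg
  have hc0 : 0 < c := by rw [hc]; positivity
  have hcC : 2 * c * C ≤ 1 / 4 := by
    rw [hc]
    have : 2 * (1 / (8 * ((C : ℝ) + 1))) * C = C / (4 * (C + 1)) := by
      field_simp
      ring
    rw [this, div_le_div_iff₀ (by positivity) (by norm_num)]
    nlinarith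
  let γ : ContDiffBump (0 : V j) := ⟨c, 2 * c, hc0, by linarith⟩
  have hγs : ContDiff ℝ ∞ (γ : V j → ℝ) := γ.contDiff
  set η : V j → V j := fun x => γ x • x with hη
  have hηs : ContDiff ℝ ∞ η := hγs.smul contDiff_id
  have hηc : HasCompactSupport η := γ.hasCompactSupport.smul_right
  obtain ⟨L, hL⟩ := ContDiff.lipschitzWith_of_hasCompactSupport (𝕂 := ℝ) (n := ∞)
    hηc hηs (by simp)
  have hL0 : (0 : ℝ) ≤ L := L.coe_nonneg
  have hηb : ∀ x, ‖η x‖ ≤ 2 * c := by
    intro x
    by_cases hx : 2 * c ≤ ‖x‖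
    · have h0 : γ x = 0 := by
        apply γ.zero_of_le_dist
        rw [dist_zero_right]
        exact hx
      rw [hη]
      simp only
      rw [h0, zero_smul, norm_zero]
      positivity
    · rw [hη]
      simp only
      rw [norm_smul, Real.norm_eq_abs, abs_of_nonneg γ.nonneg]
      calc γ x * ‖x‖ ≤ 1 * (2 * c) := mul_le_mul γ.le_one
            (not_le.1 hx).le (norm_nonneg _) zero_le_one
        _ = 2 * c := one_mul _
  have hηx : ∀ x, ‖x‖ < c → η x = x := by
    intro x hx
    rw [hη]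
    simp only
    rw [γ.one_of_mem_closedBall, one_smul]
    rw [Metric.mem_closedBall, dist_zero_right]
    exact hx.le
  set t : ℝ := 1 / (4 * (B * L + 1)) with ht
  have hBL : 0 ≤ B * L := mul_nonneg hB0 hL0
  have ht0 : 0 < t := by rw [ht]; positivity
  have htL : B * L * t ≤ 1 / 4 := by
    rw [ht]
    have : B * (L : ℝ) * (1 / (4 * (B * (L : ℝ) + 1))) = B * L / (4 * (B * L + 1)) := by
      field_simp
    rw [this, div_le_div_iff₀ (by positivity) (by norm_num)]
    nlinarith
  set g : V j × V n → V j × V n := fun p => (0, b p.2 (η (t • p.1))) with hg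
  have hgs : ContDiff ℝ ∞ g := by
    refine contDiff_const.prodMk ?_
    exact (hbs.comp contDiff_snd).clm_apply (hηs.comp (contDiff_fst.const_smul t))
  have hgl : LipschitzWith (1 / 2) g := by
    refine LipschitzWith.of_dist_le_mul fun p p' => ?_
    have h1 : dist (g p) (g p') = ‖b p.2 (η (t • p.1)) - b p'.2 (η (t • p'.1))‖ := by
      rw [Prod.dist_eq, hg]
      simp only [dist_self]
      rw [max_eq_right dist_nonneg, dist_eq_norm]
    have h2 : b p.2 (η (t • p.1)) - b p'.2 (η (t • p'.1)) =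
        (b p.2 - b p'.2) (η (t • p.1)) + b p'.2 (η (t • p.1) - η (t • p'.1)) := by
      rw [ContinuousLinearMap.sub_apply, map_sub]
      abel
    have h3 : ‖(b p.2 - b p'.2) (η (t • p.1))‖ ≤ 1 / 4 * dist p p' := by
      have h4 := hC.norm_sub_le p.2 p'.2
      have h5 : ‖p.2 - p'.2‖ ≤ dist p p' := by
        rw [← dist_eq_norm, Prod.dist_eq]
        exact le_max_right _ _
      calc ‖(b p.2 - b p'.2) (η (t • p.1))‖ ≤ ‖b p.2 - b p'.2‖ * ‖η (t • p.1)‖ :=
            ContinuousLinearMap.le_opNorm _ _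
        _ ≤ (C * ‖p.2 - p'.2‖) * (2 * c) :=
            mul_le_mul h4 (hηb _) (norm_nonneg _) (by positivity)
        _ = (2 * c * C) * ‖p.2 - p'.2‖ := by ring
        _ ≤ 1 / 4 * dist p p' := mul_le_mul hcC h5 (norm_nonneg _) (by norm_num)
    have h6 : ‖b p'.2 (η (t • p.1) - η (t • p'.1))‖ ≤ 1 / 4 * dist p p' := by
      have h4 := hL.norm_sub_le (t • p.1) (t • p'.1)
      have h5 : ‖p.1 - p'.1‖ ≤ dist p p' := by
        rw [← dist_eq_norm, Prod.dist_eq]
        exact le_max_left _ _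
      have h7 : ‖t • p.1 - t • p'.1‖ = t * ‖p.1 - p'.1‖ := by
        rw [← smul_sub, norm_smul, Real.norm_eq_abs, abs_of_pos ht0]
      rw [h7] at h4
      calc ‖b p'.2 (η (t • p.1) - η (t • p'.1))‖ ≤ ‖b p'.2‖ * ‖η (t • p.1) - η (t • p'.1)‖ :=
            ContinuousLinearMap.le_opNorm _ _
        _ ≤ B * (L * (t * ‖p.1 - p'.1‖)) := mul_le_mul (hbb _) h4 (norm_nonneg _) hB0
        _ = (B * L * t) * ‖p.1 - p'.1‖ := by ring
        _ ≤ 1 / 4 * dist p p' := mul_le_mul htL h5 (norm_nonneg _) (by norm_num)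
    rw [h1, h2]
    have h8 : (((1 / 2 : ℝ≥0)) : ℝ) = 1 / 2 := by simp
    rw [h8]
    refine (norm_add_le _ _).trans ?_
    linarith
  obtain ⟨H, hH1, hH2, hH3⟩ := Pool.Agent.W782.SC.perturb g hgs le_rfl hgl
  have hH : ∀ a v, H (a, v) = (a, v + b v (η (t • a))) := by
    intro a v
    rw [hH3, hg]
    simp
  have hHs1 : ∀ a v, (H.symm (a, v)).1 = a := by
    intro a v
    have h1 := H.apply_symm_apply (a, v)
    have h2 : H (H.symm (a, v)) = H ((H.symm (a, v)).1, (H.symm (a, v)).2) := rfl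
    rw [h2, hH] at h1
    exact congrArg Prod.fst h1
  set F : V j × V n → V n := fun q => q.2 + b q.2 (η q.1) with hF
  set F' : V j × V n → V n := fun q => (H.symm (t⁻¹ • q.1, q.2)).2 with hF'
  have hHF : ∀ x v, H (t⁻¹ • x, v) = (t⁻¹ • x, F (x, v)) := by
    intro x v
    have e : t • t⁻¹ • x = x := smul_inv_smul₀ ht0.ne' x
    rw [hH, e]
  have hinv1 : ∀ x v, F' (x, F (x, v)) = v := by
    intro x v
    have h1 : F' (x, F (x, v)) = (H.symm (t⁻¹ • x, F (x, v))).2 := rfl
    rw [h1, ← hHF, H.symm_apply_apply]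
  have hinv2 : ∀ x v, F (x, F' (x, v)) = v := by
    intro x v
    have h1 := H.apply_symm_apply (t⁻¹ • x, v)
    have h2 : H.symm (t⁻¹ • x, v) = (t⁻¹ • x, F' (x, v)) := Prod.ext (hHs1 _ _) rfl
    rw [h2, hHF] at h1
    exact congrArg Prod.snd h1
  have hout : ∀ x v, v ∉ Metric.closedBall (0 : V n) (1 / 2) → F (x, v) = v := by
    intro x v hv
    have h0 : b v = 0 := by
      rw [mem_closedBall, dist_zero_right, not_le] at hv
      exact hbz v hv
    rw [hF]
    simp only
    rw [h0, ContinuousLinearMap.zero_apply, add_zero]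
  refine ⟨F, F', c, hc0, ⟨?_, ?_, hinv1, hinv2, hout, ?_, ?_⟩, ?_⟩
  · exact contDiff_snd.add ((hbs.comp contDiff_snd).clm_apply (hηs.comp contDiff_fst))
  · exact contDiff_snd.comp (hH2.comp ((contDiff_fst.const_smul t⁻¹).prodMk contDiff_snd))
  · intro x v hv
    have h1 := hinv1 x v
    rw [hout x v hv] at h1
    exact h1
  · intro v
    have h0 : η 0 = 0 := by rw [hη]; simp
    rw [hF]
    simp only
    rw [h0, map_zero, add_zero]
  · intro x v hx
    rw [hF]
    simp only
    rw [hηx x hx]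

end Pool.Agent.Y318.MN
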